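import Pool.Agent.helper36.NA.SpecW
import Pool.Agent.helper32.ATT.NA
import Pool.Agent.helper3.NA.StepH2

/-! ATT (MP_c8d30a, theorem (A), section 6). -/

set_option autoImplicit false

namespace NAW

open NTH NA

/-- ATTACH in helper3's form. -/
theorem att {Ω : Type} [DecidableEq Ω] (p : Ω → Ω) : NA.Att p := by
  intro s q y u hw hR hq hy hmu hm hu h1 h2
  obtain ⟨t, k1, -, -, -, k2, k3, -, -⟩ :=
    Pool.Agent.helper32.ATT.attach_na hw hR hq hy hmu hu h1 h2
  exact ⟨t, k1, k2, k3⟩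

theorem ATT : ATT_stmt := by
  intro Ω _ p s q u hw hR hq hmq hl hu h1 h2
  obtain ⟨t, k1, -, -, -, k2, k3, -, -⟩ :=
    Pool.Agent.helper32.ATT.attach_na hw hR hq hmq (NA.mu_mu hw.inv s q) hu h1 h2
  exact ⟨t, k1, k2, k3⟩

end NAW
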